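import Pool.Agent.helper93.ADV.SpecU

set_option autoImplicit false

namespace Pool.Agent.ADV

open Finset Pool.Agent.helper38.Neg Pool.Agent.helper55.NT Pool.Agent.LNB

theorem BPP (hBST : BST_stmt) (hGRB : GRB_stmt) (hMJC : MJC_stmt) : BPP_stmt := by
  intro P p A hA
  obtain ⟨B, hB⟩ : ∃ B : Polynomial ℕ, ∀ n : ℕ, B.eval n =
      n + (n + 1) * (p.eval n + 2) ^ 2 * (2 * p.eval n) + 2 * ((n + 1) * (p.eval n + 2) ^ 2 + 2) ^ 2 + 2 := by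
    refine ⟨Polynomial.X + (Polynomial.X + 1) * (p + 2) ^ 2 * (2 * p) + 2 * ((Polynomial.X + 1) * (p + 2) ^ 2 + 2) ^ 2 + 2, ?_⟩
    intro n
    simp
  refine ⟨B, fun n => ?_⟩
  obtain ⟨q, hq⟩ : ∃ q : ℕ, q = p.eval n + 2 := ⟨_, rfl⟩
  have hq2 : (2 : ℝ) ≤ (q : ℝ) := by
    rw [hq]
    push_cast
    have : (0 : ℝ) ≤ ((p.eval n : ℕ) : ℝ) := Nat.cast_nonneg _
    linarith
  have hγ : (0 : ℝ) < 1 / (q : ℝ) := by positivity
  have hγ2 : 1 / (q : ℝ) ≤ 1 / 2 := one_div_le_one_div_of_le (by norm_num) hq2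
  obtain ⟨g, b, hg, hS⟩ := hBST n (A n)
    (fun g => ∃ s ≤ p.eval n, ∃ (C : Circuit n s) (o : Fin (n + s)), ∀ x, g x = C.val x o) (1 / (q : ℝ)) hγ hγ2
    (by
      intro D hD
      obtain ⟨s, hs, C, o, -, h⟩ := hA n D hD
      refine ⟨fun x => C.val x o, ⟨s, hs, C, o, fun x => rfl⟩, ?_⟩
      rw [hq]
      push_cast
      exact h)
    ((n + 1) * q ^ 2) (hGRB n q (by rw [hq]; omega))
  obtain ⟨s', hs', C', o', hC'⟩ := hMJC n ((n + 1) * q ^ 2) (p.eval n) (A n) g b hg hS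
  refine ⟨s', ?_, C', o', hC'⟩
  rw [hB, ← hq]
  exact hs'

end Pool.Agent.ADV
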